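import Mathlib
import Pool.Agent.Helper82.ZS.Fr

/-!
# Noncyclic 2-groups with cyclic commutative subgroups and one involution
-/

set_option autoImplicit false

namespace Pool.Agent.Helper12.ZS

open Pool.Agent.Helper82.EB Pool.Agent.Helper82.ZS

section

variable {S : Type*} [Group S]

/-- an element of order four which is central modulo the involution -/
lemma exists_y [Finite S] (hP : IsPGroup 2 S) (hU : UI S) (hnc : ¬ IsCyclic S) {z : S}
    (hz : z ^ 2 = 1) (hz1 : z ≠ 1) :
    ∃ y : S, y * y = z ∧ ∀ s : S, s * y = y * s ∨ s * y = z * (y * s) := by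
  classical
  obtain ⟨N, hN⟩ : ∃ N : Subgroup S, N = Subgroup.zpowers z := ⟨_, rfl⟩
  have hmem : ∀ g : S, g ∈ N → g = 1 ∨ g = z := by
    intro g hg
    rw [hN] at hg
    obtain ⟨n, hn⟩ := hg
    refine hU.cases hz hz1 ?_
    rw [← hn]
    show (z ^ n) ^ 2 = 1
    rw [← zpow_natCast, ← zpow_mul, mul_comm, zpow_mul, zpow_natCast, hz, one_zpow]
  have hzN : z ∈ N := by rw [hN]; exact Subgroup.mem_zpowers z
  have hNn : N.Normal := by
    refine ⟨fun n hn g => ?_⟩
    rcases hmem n hn with rfl | rfl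
    · rw [mul_one, mul_inv_cancel]; exact one_mem _
    · rw [hU.central hz hz1, mul_inv_cancel_right]; exact hzN
  have hQ : IsPGroup 2 (S ⧸ N) := hP.to_quotient N
  have hnt : Nontrivial (S ⧸ N) := by
    by_contra hcon
    rw [not_nontrivial_iff_subsingleton] at hcon
    apply hnc
    refine ⟨z, fun x => ?_⟩
    have h1 : (x : S ⧸ N) = 1 := Subsingleton.elim _ _
    rw [QuotientGroup.eq_one_iff] at h1
    rwa [hN] at h1
  have hc : Nontrivial (Subgroup.center (S ⧸ N)) := hQ.center_nontrivial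
  have hQc : IsPGroup 2 (Subgroup.center (S ⧸ N)) := hQ.to_subgroup _
  have hfin : Finite (S ⧸ N) := inferInstance
  obtain ⟨k, hk0, hk⟩ := (hQc.nontrivial_iff_card).mp hc
  have hdvd : 2 ∣ Nat.card (Subgroup.center (S ⧸ N)) := by
    rw [hk]; exact dvd_pow_self 2 hk0.ne'
  obtain ⟨q, hq⟩ := exists_prime_orderOf_dvd_card' 2 hdvd
  obtain ⟨y, hy⟩ := QuotientGroup.mk_surjective (q : S ⧸ N)
  have hq1 : (q : S ⧸ N) ≠ 1 := by
    intro h
    have h1 : q = 1 := Subtype.ext h
    rw [h1, orderOf_one] at hq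
    exact absurd hq (by norm_num)
  have hq2 : (q : S ⧸ N) * q = 1 := by
    have h1 := pow_orderOf_eq_one q
    rw [hq, pow_two] at h1
    exact congrArg Subtype.val h1
  have hyN : y ∉ N := by
    intro h
    apply hq1
    rw [← hy]
    exact (QuotientGroup.eq_one_iff y).mpr h
  have hyy : y * y ∈ N := by
    rw [← QuotientGroup.eq_one_iff, QuotientGroup.mk_mul, hy]
    exact hq2
  refine ⟨y, ?_, ?_⟩
  · rcases hmem _ hyy with h | h
    · exfalso
      rcases hU.cases hz hz1 (u := y) (by rw [pow_two]; exact h) with h1 | h1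
      · exact hyN (by rw [h1]; exact one_mem _)
      · exact hyN (by rw [h1]; exact hzN)
    · exact h
  · intro s
    have h1 : (s : S ⧸ N) * q = q * s := by
      have h2 := Subgroup.mem_center_iff.mp q.2 (s : S ⧸ N)
      exact h2
    have h2 : s * y * (s⁻¹ * y⁻¹) ∈ N := by
      rw [← QuotientGroup.eq_one_iff]
      rw [QuotientGroup.mk_mul, QuotientGroup.mk_mul, QuotientGroup.mk_mul,
        QuotientGroup.mk_inv, QuotientGroup.mk_inv, hy, h1]
      group
    rcases hmem _ h2 with h | h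
    · left
      calc s * y = (s * y * (s⁻¹ * y⁻¹)) * (y * s) := by group
        _ = y * s := by rw [h, one_mul]
    · right
      calc s * y = (s * y * (s⁻¹ * y⁻¹)) * (y * s) := by group
        _ = z * (y * s) := by rw [h]

end

theorem s_A1 : S_A1 := by
  intro S _ _ hP hAC hU hnc
  classical
  have hnt : Nontrivial S := by
    by_contra hcon
    rw [not_nontrivial_iff_subsingleton] at hcon
    exact hnc inferInstance
  obtain ⟨k, hk0, hk⟩ := (hP.nontrivial_iff_card).mp hnt
  have hdvd : 2 ∣ Nat.card S := by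
    rw [hk]; exact dvd_pow_self 2 hk0.ne'
  obtain ⟨z, hzo⟩ := exists_prime_orderOf_dvd_card' 2 hdvd
  have hz : z ^ 2 = 1 := by rw [← hzo]; exact pow_orderOf_eq_one z
  have hz1 : z ≠ 1 := by
    intro h
    rw [h, orderOf_one] at hzo
    exact absurd hzo (by norm_num)
  have hzz : z * z = 1 := by rw [← pow_two]; exact hz
  have hcz : ∀ g : S, g * z = z * g := fun g => hU.central hz hz1 g
  obtain ⟨y, hyy, hy⟩ := exists_y hP hU hnc hz hz1
  have hy2 : y ^ 2 = z := by rw [pow_two]; exact hyy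
  have hy4 : y ^ 4 = 1 := by
    have h1 : y ^ 4 = (y ^ 2) ^ 2 := by rw [← pow_mul]
    rw [h1, hy2, hz]
  have hyo : orderOf y = 4 := by
    have h1 : orderOf y = 2 ^ (1 + 1) := by
      refine orderOf_eq_prime_pow ?_ ?_
      · rw [pow_one, hy2]; exact hz1
      · exact hy4
    rw [h1]; norm_num
  obtain ⟨C, hC⟩ : ∃ C : Subgroup S, ∀ g : S, g ∈ C ↔ g * y = y * g := by
    refine ⟨Subgroup.centralizer {y}, fun g => ?_⟩
    rw [Subgroup.mem_centralizer_iff]
    constructor
    · intro h
      exact (h y (Set.mem_singleton y)).symm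
    · intro h u hu
      rw [Set.mem_singleton_iff] at hu
      rw [hu]; exact h.symm
  -- the centralizer is cyclic
  have hCc : IsCyclic C := by
    by_contra hcon
    have : Fact (Nat.Prime 2) := ⟨Nat.prime_two⟩
    obtain ⟨j, hj, x, hx, hq⟩ := quat_of_noncyclic hAC 2 C (hP.to_subgroup C) hcon
    obtain ⟨hj2, hj4, hx2, hxj⟩ := id hq
    have hjz : j ^ 2 = z := by
      refine hU _ _ ?_ hj2 hz hz1
      rw [← pow_mul]; exact hj4
    have key : ∀ u : S, u ∈ C → u ^ 2 = z → u = z * y ∨ u = y := by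
      intro u hu hu2
      refine eq_of_mul_sq hU hz hz1 hyy ?_
      have hcomm : Commute u y := (hC u).mp hu
      rw [hcomm.mul_pow, hu2, hy2, hzz]
    refine Quat.ne_comm hq ?_
    rcases key j hj hjz with h | h
    · rw [h]
      calc z * y * x = z * (x * y) := by rw [mul_assoc, ((hC x).mp hx)]
        _ = x * (z * y) := by rw [← mul_assoc, ← hcz, mul_assoc]
    · rw [h]; exact ((hC x).mp hx).symm
  have hneg : ∀ s : S, s ∉ C → s * y = z * (y * s) := by
    intro s hs
    rcases hy s with h | h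
    · exact absurd ((hC s).mpr h) hs
    · exact h
  have hmul : ∀ a b : S, a ∉ C → b ∉ C → b * a ∈ C := by
    intro a b ha hb
    rw [hC]
    calc b * a * y = b * (a * y) := mul_assoc _ _ _
      _ = b * (z * (y * a)) := by rw [hneg a ha]
      _ = (b * z) * (y * a) := by rw [mul_assoc]
      _ = z * ((b * y) * a) := by rw [hcz b]; simp only [mul_assoc]
      _ = z * (z * (y * b) * a) := by rw [hneg b hb]
      _ = (z * z) * (y * (b * a)) := by simp only [mul_assoc]
      _ = y * (b * a) := by rw [hzz, one_mul]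
  obtain ⟨a, ha⟩ : ∃ a, a ∉ C := by
    by_contra hcon
    push Not at hcon
    have htop : C = ⊤ := eq_top_iff.mpr fun x _ => hcon x
    rw [htop] at hCc
    exact hnc (isCyclic_of_surjective (Subgroup.topEquiv (G := S)) Subgroup.topEquiv.surjective)
  have hidx : C.index = 2 := by
    rw [Subgroup.index_eq_two_iff]
    refine ⟨a, fun b => ?_⟩
    by_cases hb : b ∈ C
    · right
      exact ⟨hb, fun h => ha ((C.mul_mem_cancel_left hb).mp h)⟩
    · left
      exact ⟨hmul a b ha hb, hb⟩
  have hzC : z ∈ C := (hC z).mpr (hcz y).symm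
  have hsq : ∀ s : S, s ∉ C → s ^ 2 = z := by
    intro s hs
    have h4 : (s ^ 2) ^ 2 = 1 := by
      by_contra hcon
      have hs2 : s ^ 2 ∈ C := by rw [pow_two]; exact hmul s s hs hs
      obtain ⟨r, hr⟩ : ∃ r, orderOf (s ^ 2) = 2 ^ r := by
        have h1 : orderOf (s ^ 2) ∣ 2 ^ k := by rw [← hk]; exact orderOf_dvd_natCard _
        obtain ⟨r, _, hr⟩ := (Nat.dvd_prime_pow Nat.prime_two).mp h1
        exact ⟨r, hr⟩
      have hr2 : 2 ≤ r := by
        by_contra h
        apply hcon
        have h1 : orderOf (s ^ 2) ∣ 2 := by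
          rw [hr]
          calc 2 ^ r ∣ 2 ^ 1 := pow_dvd_pow 2 (by omega)
            _ = 2 := pow_one 2
        exact orderOf_dvd_iff_pow_eq_one.mp h1
      have h1 : orderOf ((s ^ 2) ^ 2 ^ (r - 2)) = 4 := by
        rw [orderOf_pow_of_dvd (Nat.pow_pos (by norm_num)).ne'
          (by rw [hr]; exact pow_dvd_pow 2 (by omega)), hr,
          Nat.pow_div (by omega) (by norm_num)]
        have : r - (r - 2) = 2 := by omega
        rw [this]
      have h2 : y * (s ^ 2) ^ 2 ^ (r - 2) = (s ^ 2) ^ 2 ^ (r - 2) * y := by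
        have h3 : Commute (s ^ 2) y := (hC _).mp hs2
        exact ((h3.pow_left _).eq).symm
      have h3 := hAC.mem_zpowers h2 (hyo.trans h1.symm)
      obtain ⟨n, hn⟩ := h3
      apply hs
      rw [hC]
      have h4 : Commute s (((s ^ 2) ^ 2 ^ (r - 2)) ^ n) :=
        ((((Commute.refl s).pow_right 2).pow_right _).zpow_right n)
      have h5 : ((s ^ 2) ^ 2 ^ (r - 2)) ^ n = y := hn
      rw [h5] at h4
      exact h4
    rcases hU.cases hz hz1 h4 with h | h
    · exfalso
      rcases hU.cases hz hz1 h with h1 | h1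
      · exact hs (by rw [h1]; exact one_mem _)
      · exact hs (by rw [h1]; exact hzC)
    · exact h
  refine ⟨y, C, by rw [hy2]; exact hz1, hy4, (hC y).mpr rfl, hCc, hidx, ?_⟩
  intro s hs
  refine ⟨by rw [hsq s hs, hy2], ?_⟩
  intro c hc
  have hsc : s * c ∉ C := fun h => hs ((C.mul_mem_cancel_right hc).mp h)
  have h1 : s * c * (s * c) = s * s := by
    rw [← pow_two, hsq _ hsc, ← hsq s hs, pow_two]
  have h2 : c * (s * c) = s := by
    have h3 : s * (c * (s * c)) = s * s := by rw [← mul_assoc]; exact h1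
    exact mul_left_cancel h3
  calc s * c * s⁻¹ = c⁻¹ * (c * (s * c)) * s⁻¹ := by group
    _ = c⁻¹ * s * s⁻¹ := by rw [h2]
    _ = c⁻¹ := by group

end Pool.Agent.Helper12.ZS
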